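import Pool.Agent.H30.AS.Words
import Pool.Agent.H30.AS.Lattice
import Pool.Agent.H30.AS.Change
import Pool.Agent.H30.AS.Slope

/-!
# Integer alternating surgeries that do not come from the Montesinos trick

For every `m ≥ 1`:

(i) the alternating link diagram `word m` (with `8 + m` crossings; `word 1` is the knot `9_32`)
arises from a diagram of the unknot by one band move.  By the Montesinos trick the double branched
cover of `word m` is the surgery with slope `± (34 + 25 m)` on a knot `K`;

(ii) the lattice of the checkerboard graph of `word m` is the orthogonal complement of the
changemaker vector `sig m = (1, 2, 2, 3, 4, 5, …, 5)` of norm `34 + 25 m`; so, by Greene, the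
torsion sequence of `K` is that of `sig m`;

(iii) no lattice of a non-integer slope with this torsion sequence is a graph lattice; so, by
Gibbons and McCoy, no knot with the torsion sequence of `K` has a non-integer alternating surgery.
Every knot of the set `D` of the problem has one.

The words are read as tangle diagrams that act on the strands `0, 1, 2, …`; every elementary
isotopy is an isotopy of such tangles, also if the word is considered with infinitely many
vertical strands to its right.  Hence isotopic words that are link diagrams describe isotopic
links, even if some of the intermediate words are not link diagrams.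
-/

namespace Pool.Agent.Results.MP_c56765_gt.IntegerSurgeries

open Pool.Agent.H30.AS

theorem result (m : ℕ) (hm : 1 ≤ m) :
    (IsLinkDiagram (word m) ∧ IsAlternating (word m) ∧
      ∃ u w, BandMove u w ∧ Isotopic u unknot ∧ Isotopic w (word m)) ∧
    (IsChangemaker (sig m) ∧ ∑ k, sig m k ^ 2 = 34 + 25 * m ∧
      IsGraphLattice (tait (word m)) (perp (sig m))) ∧
    ∀ (l : ℕ) (c : ℕ → ℕ) (t : ℕ) (s : Fin t → ℕ), 1 ≤ l → c 0 = 0 → StrictMono c →
      (∀ i, torsion (oneCons s) i = torsion (sig m) i) →
        ∀ E : List (ℕ × ℕ), ¬ IsGraphLattice E (slopeLattice l c s) :=
  ⟨word_band m, ⟨sig_changemaker m, norm_sig m, graph_perp m hm⟩,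
    fun l c t s hl h0 hc h E => not_graph_slope m hm l c t s hl h0 hc h E⟩

end Pool.Agent.Results.MP_c56765_gt.IntegerSurgeries
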